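import Pool.Agent.Work.MP_a8cb64_co.TE3
import Pool.Agent.Work.MP_a8cb64_co.VP6
import Pool.Agent.Work.MP_a8cb64_co.VP7

/-!
MP_a8cb64_co: sharp asymptotics for every fixed `s`: `f_r(k,s) = (1 + o(1)) r k^(-1/s)` as
`k → ∞` and `r k^(-1/s) → ∞`.
-/

namespace Pool.Agent.Results.MP_a8cb64_co.FixedSharp

theorem result (s : ℕ) (hs : 1 ≤ s) (ε : ℝ) (hε : 0 < ε) : ∃ C : ℝ, 0 < C ∧ ∀ k r : ℕ,
    C ≤ k → C * (k : ℝ) ^ (1 / (s : ℝ)) ≤ r →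
      (r : ℝ) / (k : ℝ) ^ (1 / (s : ℝ)) ≤ (LocTr.fval r k s : ℝ) ∧
        (LocTr.fval r k s : ℝ) ≤ (1 + ε) * ((r : ℝ) / (k : ℝ) ^ (1 / (s : ℝ))) :=
  LocTr.theoremS_nolog_of s hs (LocTr.s_core_nolog (fun t ht => LocTr.lemmaE t ht) s hs) ε hε

end Pool.Agent.Results.MP_a8cb64_co.FixedSharp
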