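import Pool.Agent.Work.MP_a8cb64_co.LM1
import Pool.Agent.Work.MP_a8cb64_co.LM2
import Pool.Agent.Work.MP_a8cb64_co.LM3
import Pool.Agent.Work.MP_a8cb64_co.LM4

/-!
MP_a8cb64_co: `f_r(k,s) = (1 + o(1)) r s` as `min(r,s)` tends to infinity, for all `s < k ≤ K s`.

Lower bound: a sparse `r`-graph `H` on about `(1 - ε/2) s r` vertices in which every set of
`(ε/4) s r` vertices contains an edge and any two edges share few vertices (`LM1`, counting);
any `K s` edges of `H` are covered by `s` points, because in the dual hypergraph all degrees are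
`r` and all codegrees are small, so it has a nearly perfect matching of the right size
(`LM2`: a weighted greedy with a quadratic potential; `LM3`: cutting the types into bounded pieces).
-/

namespace Pool.Agent.Results.MP_a8cb64_co.LinearRange

theorem result (K : ℕ) (ε : ℝ) (hε : 0 < ε) : ∃ N : ℕ, ∀ r s k : ℕ, N ≤ r → N ≤ s → s < k →
    k ≤ K * s →
      (1 - ε) * (r * s) ≤ (LocTr.fval r k s : ℝ) ∧ (LocTr.fval r k s : ℝ) ≤ r * s :=
  LocTr.theoremA_of (fun A b hb => LocTr.exists_sparse A b hb)
    (fun K ε hε => LocTr.cover_lemma_of (fun R η h0 h1 => LocTr.nibble R η h0 h1) K ε hε) K ε hε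

end Pool.Agent.Results.MP_a8cb64_co.LinearRange
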