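import Pool.Agent.Work.MP_a8cb64_co.LD1
import Pool.Agent.Work.MP_a8cb64_co.LD2
import Pool.Agent.Work.MP_a8cb64_co.LD3
import Pool.Agent.Work.MP_a8cb64_co.LD4
import Pool.Agent.Work.MP_a8cb64_co.LD5
import Pool.Agent.Work.MP_a8cb64_co.LD6
import Pool.Agent.Work.MP_a8cb64_co.LD7
import Pool.Agent.Work.MP_a8cb64_co.LD8
import Pool.Agent.Work.MP_a8cb64_co.LD9
import Pool.Agent.Work.MP_a8cb64_co.LD10

/-!
MP_a8cb64_co: the order of magnitude of `f_r(k,s)`, uniformly in `k > s ≥ 1`, up to the factor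
`(1 + log k / s)^(3/2)`.  With `q = k^(1/s)`: for all large `r`
`r s / (C q (1 + log q)^(3/2)) ≤ f_r(k,s) ≤ C r s / q`.

Lower bound for large `s`: a random `r`-graph `H` on `W r` points.  Every family of `j ≤ k` edges
of `H` has small information (minus the logarithm of the probability of its Venn diagram).  The
information is supermodular, so the edges of a query can be ordered such that every edge is
almost independent of a random subset of the previous ones (`LD1` - `LD4`).  Reading the query in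
this order, `s` correlated Markov chains (particles) are coupled such that every edge is hit by
one of them (`LD5` - `LD7`).  Small `s`: complete `r`-graphs (`LD8`).  Upper bound: a tree
recursion (`LD9`).
-/

namespace Pool.Agent.Results.MP_a8cb64_co.RootOrder

open LocTr

theorem lower_big : LowerBigStmt :=
  lower_big_of (fun W k β h1 h2 h3 => exists_info W k β h1 h2 h3)
    (fun n r J h => infoG_nonneg n r J h)
    (fun n r J J' e h1 h2 h3 h4 => infoG_super n r J J' e h1 h2 h3 h4)
    (fun G F b u h1 h2 h3 h4 h5 => info_order G F b u h1 h2 h3 h4 h5)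
    (fun W r h1 h2 J e h3 h4 h5 => low_info W r h1 h2 J e h3 h4 h5)
    (fun U e u δ θ d W r k h1 h2 h3 h4 h5 h6 h7 h8 h9 i hi =>
      chain_exp_one U e u δ θ d W r k h1 h2 h3 h4 h5 h6 h7 h8 h9 i hi)
    (fun U e u h1 h2 i A => tauw_bd_one U e u h1 h2 i A)
    (fun U e u h1 h2 h3 k S h4 h5 => chain_point_one U e u h1 h2 h3 k S h4 h5)
    (fun s k τ S η lam h1 h2 h3 h4 h5 h6 h7 => chain_p s k τ S η lam h1 h2 h3 h4 h5 h6 h7)

theorem result : ∃ C : ℝ, 0 < C ∧ ∀ k s : ℕ, 1 ≤ s → s < k → ∃ r0 : ℕ, ∀ r : ℕ, r0 ≤ r →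
    (r : ℝ) * s * (k : ℝ) ^ (-(1 / (s : ℝ))) / (C * (1 + Real.log k / s) ^ (3 / 2 : ℝ)) ≤
        (fval r k s : ℝ) ∧
      (fval r k s : ℝ) ≤ C * (r * s) * (k : ℝ) ^ (-(1 / (s : ℝ))) :=
  theoremD_of lower_big (fun r k s h1 h2 h3 => fval_complete r k s h1 h2 h3)
    (fun k s h1 h2 => fval_root_upper k s h1 h2)

end Pool.Agent.Results.MP_a8cb64_co.RootOrder
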