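import Pool.Agent.Work.MP_a8cb64_co.LE1
import Pool.Agent.Work.MP_a8cb64_co.LE6
import Pool.Agent.Work.MP_a8cb64_co.LH3
import Pool.Agent.Work.MP_a8cb64_co.LM4

/-!
MP_a8cb64_co: for `s → ∞` the trivial bound `f_r(k,s) ≤ r s` is asymptotically sharp (for large
`r`) exactly when `log k = o(s)`.

(1) For every `ε > 0` there is `c > 0` with `(1-ε) r s ≤ f_r(k,s) ≤ r s` for `s < k ≤ e^{cs}`.
(2) For all `0 < θ < 1`, `ε > 0`: `f_r(k,s) ≤ (θ+ε) r s` for `k ≥ exp((log(1/θ) - (1-θ) + ε) s)`.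
-/

namespace Pool.Agent.Results.MP_a8cb64_co.SharpThreshold

theorem result :
    (∀ ε : ℝ, 0 < ε → ∃ c : ℝ, 0 < c ∧ ∃ s0 : ℕ, ∀ s : ℕ, s0 ≤ s → ∀ k : ℕ, s < k →
      (k : ℝ) ≤ Real.exp (c * s) → ∃ r0 : ℕ, ∀ r : ℕ, r0 ≤ r →
        (1 - ε) * (r * s) ≤ (LocTr.fval r k s : ℝ) ∧ (LocTr.fval r k s : ℝ) ≤ r * s) ∧
    (∀ θ ε : ℝ, 0 < θ → θ < 1 → 0 < ε → ∃ s0 : ℕ, ∀ s : ℕ, s0 ≤ s → ∀ k : ℕ,
      Real.exp ((Real.log (1 / θ) - (1 - θ) + ε) * s) ≤ k → ∃ r0 : ℕ, ∀ r : ℕ, r0 ≤ r →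
        (LocTr.fval r k s : ℝ) ≤ (θ + ε) * (r * s)) := by
  constructor
  · intro ε hε
    obtain ⟨c, hc, s0, h⟩ := LocTr.exp_lower_of
      (fun A a b ha hb => LocTr.exists_spread A a b ha hb) (min ε (1 / 2))
      (lt_min hε (by norm_num)) (lt_of_le_of_lt (min_le_right _ _) (by norm_num))
    refine ⟨c, hc, s0, fun s hs k hk hkc => ?_⟩
    obtain ⟨r0, hr⟩ := h s hs k hk hkc
    refine ⟨r0, fun r hr0 => ⟨?_, ?_⟩⟩
    · refine le_trans ?_ (hr r hr0)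
      apply mul_le_mul_of_nonneg_right _ (by positivity)
      linarith [min_le_left ε (1 / 2)]
    · exact_mod_cast LocTr.fval_le r k s hk
  · intro θ ε hθ0 hθ1 hε
    obtain ⟨s0, h⟩ := LocTr.exp_upper_sharp θ ε hθ0 hθ1 hε
    refine ⟨s0, fun s hs k hk => h s hs k ?_⟩
    have e : Real.log (1 / θ) = -Real.log θ := by rw [one_div, Real.log_inv]
    rwa [e] at hk

end Pool.Agent.Results.MP_a8cb64_co.SharpThreshold
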